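import Pool.Agent.H46.MIC.W0s
import Pool.Agent.H5.K2.Tree

/-!
# The best values of the other samples

A property of `n + 1` samples with a common label `l` is a property of one sample and of the label,
with at least the same probability, if the other samples are chosen in the best way as functions
of the label.
-/

set_option autoImplicit false

namespace Pool.MIC30

open Finset Real
open Pool.Agent.H49.Ent Pool.Agent.H32.Dense Pool.STK Pool.BFL Pool.CLU Pool.MIC
open Pool.K2S (cpn)

variable {Ω Λ : Type} [Fintype Ω]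

open Classical in
/-- The law of the samples: one sample and the others. -/
theorem cpn_insert (p : Ω → ℝ) (l : Ω → Λ) (n : ℕ) (r : Fin (n + 1)) (a : Ω) (v : Fin n → Ω) :
    cpn p l n (Fin.insertNth r a v : Fin (n + 1) → Ω) =
      if ∀ i, l (v i) = l a then p a * (∏ i, p (v i)) / law p l (l a) ^ n else 0 := by
  have h1 : (∀ i, l ((Fin.insertNth r a v : Fin (n + 1) → Ω) i) =
      l ((Fin.insertNth r a v : Fin (n + 1) → Ω) 0)) ↔ ∀ i, l (v i) = l a := by
    constructor
    · intro h i
      have h2 := h (r.succAbove i)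
      have h3 := h r
      rw [Fin.insertNth_apply_succAbove] at h2
      rw [Fin.insertNth_apply_same] at h3
      rw [h2, h3]
    · intro h
      have h2 : ∀ i, l ((Fin.insertNth r a v : Fin (n + 1) → Ω) i) = l a := by
        intro i
        refine Fin.succAboveCases r ?_ (fun j => ?_) i
        · rw [Fin.insertNth_apply_same]
        · rw [Fin.insertNth_apply_succAbove]
          exact h j
      intro i
      rw [h2 i, h2 0]
  unfold cpn
  rw [Fin.prod_univ_succAbove _ r]
  simp only [Fin.insertNth_apply_same, Fin.insertNth_apply_succAbove]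
  by_cases h : ∀ i, l (v i) = l a
  · rw [if_pos (h1.2 h), if_pos h]
    have h3 : l ((Fin.insertNth r a v : Fin (n + 1) → Ω) 0) = l a := by
      rw [← (h1.2 h) r, Fin.insertNth_apply_same]
    rw [h3]
  · rw [if_neg fun hh => h (h1.1 hh), if_neg h]

/-- **The other samples are chosen in the best way.** -/
theorem best_others {p : Ω → ℝ} (hp : IsLaw p) (l : Ω → Λ) (n : ℕ) (r : Fin (n + 1))
    (E : Ω → Prop) (Good : (Fin (n + 1) → Ω) → Ω → Prop)
    (hG : ∀ w w' : Fin (n + 1) → Ω, (∀ i, i ≠ r → w i = w' i) → ∀ ω, Good w ω ↔ Good w' ω) :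
    ∃ x : Λ → (Fin (n + 1) → Ω), Pb (cpn p l n) (fun w => (∀ i, E (w i)) ∧ Good w (w r)) ≤
      Pb p (fun ω => E ω ∧ Good (x (l ω)) ω) := by
  classical
  have hne : Nonempty Ω := by
    by_contra h
    rw [not_nonempty_iff] at h
    have h1 := hp.sum_one
    rw [Finset.univ_eq_empty, Finset.sum_empty] at h1
    exact zero_ne_one h1
  obtain ⟨a₀⟩ := hne
  obtain ⟨N, hN⟩ : ∃ N : Λ → (Fin (n + 1) → Ω) → ℝ, N = fun t w =>
    ∑ ω, if l ω = t ∧ E ω ∧ Good w ω then p ω else 0 := ⟨_, rfl⟩
  have hN0 : ∀ t w, 0 ≤ N t w := by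
    intro t w
    rw [hN]
    refine Finset.sum_nonneg fun ω _ => ?_
    split_ifs
    · exact hp.nonneg ω
    · exact le_rfl
  have hmax : ∀ t, ∃ w, ∀ w', N t w' ≤ N t w := by
    intro t
    obtain ⟨w, _, hw⟩ := Finset.exists_max_image (univ : Finset (Fin (n + 1) → Ω)) (N t)
      ⟨fun _ => a₀, Finset.mem_univ _⟩
    exact ⟨w, fun w' => hw w' (Finset.mem_univ _)⟩
  choose x hx using hmax
  refine ⟨x, ?_⟩
  have e1 : Pb p (fun ω => E ω ∧ Good (x (l ω)) ω) = ∑ t ∈ univ.image l, N t (x t) := by
    rw [hN]
    simp only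
    rw [Finset.sum_comm]
    unfold Pb
    refine Finset.sum_congr rfl fun ω _ => ?_
    rw [Finset.sum_eq_single (l ω)]
    · simp
    · intro t _ ht
      rw [if_neg fun h => ht h.1.symm]
    · intro h
      exact absurd (Finset.mem_image_of_mem l (Finset.mem_univ ω)) h
  have e2 : Pb (cpn p l n) (fun w => (∀ i, E (w i)) ∧ Good w (w r)) ≤
      ∑ t ∈ univ.image l, ∑ v : Fin n → Ω,
        ((∏ i, if l (v i) = t then p (v i) else 0) / law p l t ^ n) *
          N t (Fin.insertNth r a₀ v : Fin (n + 1) → Ω) := by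
    unfold Pb
    rw [← (Fin.insertNthEquiv (fun _ : Fin (n + 1) => Ω) r).sum_comp, Fintype.sum_prod_type,
      Finset.sum_comm]
    rw [Finset.sum_comm (s := univ.image l)]
    refine Finset.sum_le_sum fun v _ => ?_
    rw [hN]
    simp only [Finset.mul_sum]
    rw [Finset.sum_comm]
    refine Finset.sum_le_sum fun a _ => ?_
    have hterm : ∀ t, 0 ≤ ((∏ i, if l (v i) = t then p (v i) else 0) / law p l t ^ n) *
        (if l a = t ∧ E a ∧ Good (Fin.insertNth r a₀ v : Fin (n + 1) → Ω) a then p a else 0) := by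
      intro t
      refine mul_nonneg (div_nonneg (Finset.prod_nonneg fun i _ => ?_)
        (pow_nonneg (law_nonneg hp.nonneg _ _) _)) ?_
      · split_ifs
        · exact hp.nonneg _
        · exact le_rfl
      · split_ifs
        · exact hp.nonneg _
        · exact le_rfl
    refine le_trans ?_ (Finset.single_le_sum (f := fun t =>
      ((∏ i, if l (v i) = t then p (v i) else 0) / law p l t ^ n) *
        (if l a = t ∧ E a ∧ Good (Fin.insertNth r a₀ v : Fin (n + 1) → Ω) a then p a else 0))
      (fun t _ => hterm t) (Finset.mem_image_of_mem l (Finset.mem_univ a)))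
    have hi : (Fin.insertNthEquiv (fun _ : Fin (n + 1) => Ω) r) (a, v) =
        (Fin.insertNth r a v : Fin (n + 1) → Ω) := rfl
    rw [hi]
    by_cases hc : (∀ i, E ((Fin.insertNth r a v : Fin (n + 1) → Ω) i)) ∧
        Good (Fin.insertNth r a v : Fin (n + 1) → Ω)
          ((Fin.insertNth r a v : Fin (n + 1) → Ω) r)
    · rw [if_pos hc]
      obtain ⟨hc1, hc2⟩ := hc
      have hEa : E a := by
        have := hc1 r
        rwa [Fin.insertNth_apply_same] at this
      rw [Fin.insertNth_apply_same] at hc2
      have hGa : Good (Fin.insertNth r a₀ v : Fin (n + 1) → Ω) a := by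
        refine (hG _ _ (fun i hi => ?_) a).1 hc2
        obtain ⟨j, rfl⟩ := Fin.exists_succAbove_eq hi
        rw [Fin.insertNth_apply_succAbove, Fin.insertNth_apply_succAbove]
      rw [if_pos ⟨rfl, hEa, hGa⟩, cpn_insert]
      by_cases hv : ∀ i, l (v i) = l a
      · rw [if_pos hv, Finset.prod_congr rfl fun i _ => if_pos (hv i)]
        refine le_of_eq ?_
        ring
      · rw [if_neg hv]
        refine mul_nonneg (div_nonneg (Finset.prod_nonneg fun i _ => ?_)
          (pow_nonneg (law_nonneg hp.nonneg _ _) _)) (hp.nonneg a)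
        split_ifs
        · exact hp.nonneg _
        · exact le_rfl
    · rw [if_neg hc]
      exact hterm (l a)
  rw [e1]
  refine e2.trans (Finset.sum_le_sum fun t _ => ?_)
  have h1 : ∑ v : Fin n → Ω, (∏ i, if l (v i) = t then p (v i) else 0) = law p l t ^ n := by
    have h2 := Finset.prod_univ_sum (fun _ : Fin n => (univ : Finset Ω))
      (fun _ x => if l x = t then p x else 0)
    rw [Fintype.piFinset_univ, Finset.prod_const, Finset.card_univ, Fintype.card_fin] at h2
    rw [← h2]
    rfl
  calc ∑ v : Fin n → Ω, ((∏ i, if l (v i) = t then p (v i) else 0) / law p l t ^ n) *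
        N t (Fin.insertNth r a₀ v : Fin (n + 1) → Ω)
      ≤ ∑ v : Fin n → Ω, ((∏ i, if l (v i) = t then p (v i) else 0) / law p l t ^ n) *
        N t (x t) := by
        refine Finset.sum_le_sum fun v _ => mul_le_mul_of_nonneg_left (hx t _) ?_
        refine div_nonneg (Finset.prod_nonneg fun i _ => ?_)
          (pow_nonneg (law_nonneg hp.nonneg _ _) _)
        split_ifs
        · exact hp.nonneg _
        · exact le_rfl
    _ = (law p l t ^ n / law p l t ^ n) * N t (x t) := by
        rw [← Finset.sum_mul, ← Finset.sum_div, h1]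
    _ ≤ 1 * N t (x t) := mul_le_mul_of_nonneg_right (div_self_le_one _) (hN0 t _)
    _ = N t (x t) := one_mul _

end Pool.MIC30
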