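import Pool.Agent.H46.MIC.W0s
import Pool.Agent.H5.K2.SEP
import Pool.Agent.H5.K2.PRICE

/-!
# Several samples of one line, all in an event

`q = cpn p l n` is the law of `n + 1` samples which are conditionally independent given the line
`l`. All samples are in the event `E` with probability at least `(Pb p E) ^ (n + 1)`. Given this
event the position of each sample is full given the times and the shapes of all samples, as soon as
the shape has few values on `E` and the position is full given all times.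
-/

set_option autoImplicit false

namespace Pool.MIC30

open Finset Real
open Pool.Agent.H49.Ent Pool.Agent.H32.Dense Pool.STK Pool.BFL Pool.CLU Pool.MIC
open Pool.K2S (cpn)

variable {Ω Ω' Λ B Θ S V T U : Type} [Fintype Ω] [Fintype Ω']

/-- All samples are in the event. -/
def All (E : Ω → Prop) (n : ℕ) (w : Fin (n + 1) → Ω) : Prop := ∀ i, E (w i)

/-- Jensen. -/
theorem all_ge {p : Ω → ℝ} (hp : IsLaw p) (l : Ω → Λ) (E : Ω → Prop) (n : ℕ) :
    Pb p E ^ (n + 1) ≤ Pb (cpn p l n) (All E n) := by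
  classical
  have h1 : Pb (cpn p l n) (All E n) =
      ∑ w, cpn p l n w * ∏ i, (if E (w i) then (1 : ℝ) else 0) := by
    unfold Pb All
    refine Finset.sum_congr rfl fun w _ => ?_
    by_cases h : ∀ i, E (w i)
    · rw [if_pos h, Finset.prod_congr rfl fun i _ => if_pos (h i)]
      simp
    · rw [if_neg h]
      push Not at h
      obtain ⟨i, hi⟩ := h
      rw [Finset.prod_eq_zero (Finset.mem_univ i) (if_neg hi), mul_zero]
  rw [h1, sum_cpn_prod (p := p) l n (fun ω => if E ω then (1 : ℝ) else 0)]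
  obtain ⟨f, hf⟩ : ∃ f : Λ → ℝ, f = fun t => ∑ ω, if l ω = t then p ω *
    (if E ω then (1 : ℝ) else 0) else 0 := ⟨_, rfl⟩
  have hsum : ∑ t ∈ univ.image l, f t = Pb p E := by
    rw [hf]
    simp only
    rw [Finset.sum_comm]
    unfold Pb
    refine Finset.sum_congr rfl fun ω _ => ?_
    rw [Finset.sum_ite_eq, if_pos (Finset.mem_image_of_mem l (Finset.mem_univ ω))]
    by_cases h : E ω <;> simp [h]
  have hlaw : ∑ t ∈ univ.image l, law p l t = 1 := by
    unfold law
    rw [Finset.sum_comm, ← hp.sum_one]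
    refine Finset.sum_congr rfl fun ω _ => ?_
    rw [Finset.sum_ite_eq, if_pos (Finset.mem_image_of_mem l (Finset.mem_univ ω))]
  have hf0 : ∀ t, 0 ≤ f t := by
    intro t
    rw [hf]
    refine Finset.sum_nonneg fun ω _ => ?_
    have := hp.nonneg ω
    split_ifs <;> simp [this]
  have hfl : ∀ t, f t ≤ law p l t := by
    intro t
    rw [hf]
    unfold law
    refine Finset.sum_le_sum fun ω _ => ?_
    have := hp.nonneg ω
    split_ifs <;> simp [this]
  -- the inequality of the means
  have hJ := Real.pow_arith_mean_le_arith_mean_pow (univ.image l) (fun t => law p l t)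
    (fun t => f t / law p l t) (fun t _ => law_nonneg hp.nonneg l t) hlaw
    (fun t _ => div_nonneg (hf0 t) (law_nonneg hp.nonneg l t)) (n + 1)
  have e1 : ∀ t, law p l t * (f t / law p l t) = f t := by
    intro t
    rcases (law_nonneg hp.nonneg l t).eq_or_lt with h | h
    · have h2 := hfl t
      have h3 := hf0 t
      rw [← h] at h2 ⊢
      rw [zero_mul]
      linarith
    · field_simp
  have e2 : ∀ t, law p l t * (f t / law p l t) ^ (n + 1) = f t ^ (n + 1) / law p l t ^ n := by
    intro t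
    rw [div_pow, pow_succ (law p l t) n]
    rcases (law_nonneg hp.nonneg l t).eq_or_lt with h | h
    · have h2 := hfl t
      have h3 := hf0 t
      have h4 : f t = 0 := by linarith
      rw [h4]
      simp
    · field_simp
  rw [Finset.sum_congr rfl fun t _ => e1 t, Finset.sum_congr rfl fun t _ => e2 t, hsum] at hJ
  refine hJ.trans (le_of_eq ?_)
  have h2 : ∀ t, f t = ∑ ω, @ite ℝ (l ω = t) (Classical.propDecidable _) (p ω *
      (if E ω then (1 : ℝ) else 0)) 0 := by
    intro t
    rw [hf]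
  refine Finset.sum_congr rfl fun t _ => ?_
  rw [h2 t]

/-- The law given an event of the sample, for one of the samples. -/
theorem cond_marg {q : Ω' → ℝ} {p : Ω → ℝ} {pr : Ω' → Ω} (h : Marg q p pr) (E : Ω → Prop) :
    Marg (cond q (fun w => E (pr w)) True) (cond p E True) pr := by
  classical
  intro ω
  have e0 : law q (fun w => E (pr w)) True = law p E True := h.law E True
  have h1 : ∀ w, (if pr w = ω then cond q (fun w => E (pr w)) True w else 0) =
      if E ω then (if pr w = ω then q w else 0) / law p E True else 0 := by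
    intro w
    unfold Pool.Agent.H49.Ent.cond
    rw [e0]
    by_cases hw : pr w = ω
    · rw [if_pos hw, if_pos hw]
      subst hw
      by_cases hE : E (pr w)
      · simp [hE]
      · simp [hE]
    · rw [if_neg hw, if_neg hw]
      simp
  have h2 : (∑ w, @ite ℝ (pr w = ω) (Classical.propDecidable _)
      (cond q (fun w => E (pr w)) True w) 0) = ∑ w,
      if E ω then (if pr w = ω then q w else 0) / law p E True else 0 := by
    refine Finset.sum_congr rfl fun w _ => ?_
    rw [← h1 w]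
  refine h2.trans ?_
  by_cases hE : E ω
  · simp only [if_pos hE]
    rw [← Finset.sum_div]
    have h3 : ∑ w, (if pr w = ω then q w else 0) = p ω := by
      have h4 := h ω
      rw [← h4]
    rw [h3]
    unfold Pool.Agent.H49.Ent.cond
    simp [hE]
  · simp only [if_neg hE, Finset.sum_const_zero]
    unfold Pool.Agent.H49.Ent.cond
    simp [hE]

/-- An event of an event. -/
theorem CH_sub_ev {p : Ω → ℝ} (hp : IsLaw p) {E F : Ω → Prop} (hFE : ∀ ω, F ω → E ω)
    (hF : 0 < Pb p F) (X : Ω → S) (W : Ω → T) :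
    CH (cond p F True) X W ≤ Pb p E / Pb p F * CH (cond p E True) X W := by
  classical
  have hEF : Pb p F ≤ Pb p E := Pb_le_of_imp hp.nonneg fun ω _ h => hFE ω h
  have hE : 0 < Pb p E := lt_of_lt_of_le hF hEF
  have h1 : Pool.Agent.H49.Ent.cond (Pool.Agent.H49.Ent.cond p E True) F True =
      Pool.Agent.H49.Ent.cond p F True := by
    funext ω
    have e1 : law (Pool.Agent.H49.Ent.cond p E True) F True = Pb p F / Pb p E := by
      rw [law_True]
      unfold Pb
      rw [Finset.sum_div]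
      refine Finset.sum_congr rfl fun ω _ => ?_
      unfold Pool.Agent.H49.Ent.cond
      rw [law_True]
      by_cases h : F ω
      · simp [h, hFE ω h, Pb]
      · simp [h]
    unfold Pool.Agent.H49.Ent.cond at e1 ⊢
    rw [e1]
    by_cases h : F ω
    · simp only [h, hFE ω h, if_true]
      rw [law_True, law_True]
      field_simp
    · simp [h]
  have h2 := CH_ev_le (p := Pool.Agent.H49.Ent.cond p E True) (cond_nonneg hp.nonneg E True) X W F
  rw [h1] at h2
  have e2 : Pb (Pool.Agent.H49.Ent.cond p E True) F = Pb p F / Pb p E := by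
    unfold Pb
    rw [Finset.sum_div]
    refine Finset.sum_congr rfl fun ω _ => ?_
    unfold Pool.Agent.H49.Ent.cond
    rw [law_True]
    by_cases h : F ω
    · simp [h, hFE ω h, Pb]
    · simp [h]
  rw [e2] at h2
  have h3 : CH (cond p F True) X W = Pb p E / Pb p F *
      (Pb p F / Pb p E * CH (cond p F True) X W) := by
    field_simp
  rw [h3]
  exact mul_le_mul_of_nonneg_left h2 (by positivity)

/-- Fullness on an event. -/
theorem full_ev {p : Ω → ℝ} (hp : IsLaw p) (E : Ω → Prop) (hE : 0 < Pb p E) (Y : Ω → V)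
    (W : Ω → T) {M θ a : ℝ} (ha0 : 0 ≤ a)
    (ha : 0 < Pb p (fun ω => ¬ E ω) → CH (cond p E False) Y W ≤ M + a)
    (h : M - θ ≤ CH p Y W) :
    M - (θ + Real.log 2 + a) / Pb p E ≤ CH (cond p E True) Y W := by
  classical
  have h1 := CH_two hp.nonneg Y W E
  have h2 : CH p Y W ≤ CH p Y (fun ω => (W ω, E ω)) + Real.log 2 := by
    have a1 := CH_chain hp.nonneg E Y W
    have a2 := CH_chain hp.nonneg Y E W
    have a3 := CH_prop_le hp.nonneg hp.sum_one E W
    have a4 := CH_swl hp.nonneg E Y W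
    have a5 : 0 ≤ CH p E (fun ω => (Y ω, W ω)) := CH_nonneg hp.nonneg _ _
    have a6 := CH_swc hp.nonneg Y E W
    linarith
  have h3 : Pb p (fun ω => ¬ E ω) * CH (cond p E False) Y W ≤
      Pb p (fun ω => ¬ E ω) * (M + a) := by
    rcases (Pb_nonneg hp.nonneg (fun ω => ¬ E ω)).eq_or_lt with h0 | h0
    · rw [← h0]
      simp
    · exact mul_le_mul_of_nonneg_left (ha h0) h0.le
  have h4 := Pb_not hp.sum_one E
  have h5 : M - (θ + Real.log 2 + a) ≤ Pb p E * CH (cond p E True) Y W +
      (1 - Pb p E) * M := by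
    have h6 : Pb p (fun ω => ¬ E ω) ≤ 1 := by linarith
    have h7 : Pb p (fun ω => ¬ E ω) * a ≤ a := mul_le_of_le_one_left ha0 h6
    have h8 : Pb p (fun ω => ¬ E ω) = 1 - Pb p E := by linarith
    rw [h8] at h3 h7 h1
    nlinarith
  have h6 : Pb p E * (M - (θ + Real.log 2 + a) / Pb p E) ≤
      Pb p E * CH (cond p E True) Y W := by
    have h7 : Pb p E * (M - (θ + Real.log 2 + a) / Pb p E) =
        Pb p E * M - (θ + Real.log 2 + a) := by
      field_simp
    rw [h7]
    linarith
  exact le_of_mul_le_mul_left h6 hE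

/-- The image of a law. -/
theorem exists_marg {q : Ω' → ℝ} (hq : IsLaw q) (pr : Ω' → Ω) :
    ∃ r : Ω → ℝ, IsLaw r ∧ Marg q r pr ∧ ∀ ω, 0 < r ω → ∃ w, 0 < q w ∧ pr w = ω := by
  classical
  obtain ⟨r, hr⟩ : ∃ r : Ω → ℝ, r = fun ω => law q pr ω := ⟨_, rfl⟩
  have hm : Marg q r pr := fun ω => by rw [hr]; rfl
  refine ⟨r, ⟨fun ω => by rw [hr]; exact law_nonneg hq.nonneg _ _, ?_⟩, hm, fun ω hω => ?_⟩
  · rw [← hm.sum]
    exact hq.sum_one
  · by_contra h
    push Not at h
    have h0 : law q pr ω = 0 := by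
      unfold law
      refine Finset.sum_eq_zero fun w _ => ?_
      by_cases hw : pr w = ω
      · rw [if_pos hw]
        by_contra h2
        exact h w (lt_of_le_of_ne (hq.nonneg w) (Ne.symm h2)) hw
      · rw [if_neg hw]
    rw [hr] at hω
    simp only [h0] at hω
    exact lt_irrefl _ hω

/-- **Several samples of one line, all in the event.** -/
theorem samp {p : Ω → ℝ} (hp : IsLaw p) (l : Ω → Λ) (b : Ω → B) (hb : Det p l b) (th : Ω → Θ)
    (Y : Ω → V) (Z : Ω → S) (E : Ω → Prop) (n : ℕ) {M a θ c : ℝ} (ha0 : 0 ≤ a)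
    (ha : ∀ r : Ω → ℝ, IsLaw r → (∀ ω, 0 < r ω → 0 < p ω) →
      CH r Y (fun ω => (b ω, th ω)) ≤ M + a)
    (hE : 0 < Pb p E) (i : Fin (n + 1))
    (hY : M - θ ≤ CH (cpn p l n) (fun w => Y (w i)) (fun w => (b (w 0), fun j => th (w j))))
    (hZ : CH (cond p E True) Z (fun ω => (b ω, th ω)) ≤ c) :
    M - (θ + Real.log 2 + a + (n + 1) * c) / Pb (cpn p l n) (All E n) ≤
      CH (cond (cpn p l n) (All E n) True) (fun w => Y (w i))
        (fun w => (b (w 0), fun j => (th (w j), Z (w j)))) := by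
  classical
  obtain ⟨q, hq⟩ : ∃ q, q = cpn p l n := ⟨_, rfl⟩
  obtain ⟨P, hP⟩ : ∃ P, P = Pb q (All E n) := ⟨_, rfl⟩
  have hql : IsLaw q := by rw [hq]; exact cpn_law hp l n
  have hPp : 0 < P := by
    rw [hP, hq]
    exact lt_of_lt_of_le (pow_pos hE _) (all_ge hp l E n)
  have hPall : 0 < Pb q (All E n) := by rw [← hP]; exact hPp
  rw [← hq] at hY ⊢
  rw [← hP]
  have hpos : ∀ w, 0 < cond q (All E n) True w → 0 < q w ∧ All E n w :=
    fun w hw => ev_pos hql.nonneg _ hw
  have hqc := isLaw_ev hql (All E n) hPall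
  have hqp : ∀ w, 0 < q w → ∀ j, 0 < p (w j) := by
    intro w hw j
    rw [hq] at hw
    exact (cpn_pos hp.nonneg l n w hw).1 j
  have hlb : ∀ w, 0 < q w → ∀ j, b (w j) = b (w 0) := by
    intro w hw j
    rw [hq] at hw
    obtain ⟨h1, h2⟩ := cpn_pos hp.nonneg l n w hw
    exact hb _ _ (h1 j) (h1 0) (h2 j)
  -- the position given the times
  have h1 := full_ev hql (All E n) hPall (fun w => Y (w i))
    (fun w => (b (w 0), fun j => th (w j))) (a := a) ha0 (fun h0 => by
      have h4 : ∑ ω, cond q (All E n) False ω = 1 := sum_cond q (All E n)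
        (by rw [law_False]; exact h0.ne')
      have h5 : IsLaw (cond q (All E n) False) := ⟨cond_nonneg hql.nonneg (All E n) False, h4⟩
      obtain ⟨r, hr1, hr2, hr3⟩ := exists_marg h5 (fun w => w i)
      have h6 := ha r hr1 (fun ω hω => by
        obtain ⟨w, hw1, hw2⟩ := hr3 ω hω
        rw [← hw2]
        exact hqp w ((cond_pos_iff hql.nonneg (All E n) False w).1 hw1).1 i)
      have h7 : CH (cond q (All E n) False) (fun w => Y (w i))
          (fun w => (b (w i), th (w i))) = CH r Y (fun ω => (b ω, th ω)) :=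
        hr2.CH Y (fun ω => (b ω, th ω))
      rw [← h7] at h6
      refine le_trans (CH_mono_cond h5.nonneg fun w w' hw hw' h => ?_) h6
      have e1 := Prod.ext_iff.1 h
      have g1 := ((cond_pos_iff hql.nonneg (All E n) False w).1 hw).1
      have g2 := ((cond_pos_iff hql.nonneg (All E n) False w').1 hw').1
      rw [Prod.mk.injEq, hlb w g1 i, hlb w' g2 i]
      exact ⟨e1.1, congrFun e1.2 i⟩) hY
  -- the shapes
  have h2 : ∀ j : Fin (n + 1), CH (cond q (All E n) True) (fun w => Z (w j))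
      (fun w => (b (w 0), fun j => th (w j))) ≤ c / P := by
    intro j
    have m1 : Marg q p (fun w => w j) := by rw [hq]; exact cpn_marg hp.nonneg l n j
    have m2 := cond_marg m1 E
    have a1 := CH_sub_ev hql (E := fun w => E (w j)) (F := All E n) (fun w h => h j) hPall
      (fun w => Z (w j)) (fun w => (b (w j), th (w j)))
    have a2 : CH (cond q (fun w => E (w j)) True) (fun w => Z (w j))
        (fun w => (b (w j), th (w j))) = CH (cond p E True) Z (fun ω => (b ω, th ω)) :=
      m2.CH Z (fun ω => (b ω, th ω))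
    have a3 : Pb q (fun w => E (w j)) ≤ 1 := by
      have := Pb_not hql.sum_one (fun w => E (w j))
      have h0 := Pb_nonneg hql.nonneg (fun w => ¬ E (w j))
      linarith
    have a4 : CH (cond q (All E n) True) (fun w => Z (w j))
        (fun w => (b (w 0), fun j => th (w j))) ≤
        CH (cond q (All E n) True) (fun w => Z (w j)) (fun w => (b (w j), th (w j))) := by
      refine CH_mono_cond hqc.nonneg fun w w' hw hw' h => ?_
      have e1 := Prod.ext_iff.1 h
      rw [Prod.mk.injEq, hlb w (hpos w hw).1 j, hlb w' (hpos w' hw').1 j]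
      exact ⟨e1.1, congrFun e1.2 j⟩
    rw [a2, ← hP] at a1
    have a5 : Pb q (fun w => E (w j)) / P * CH (cond p E True) Z (fun ω => (b ω, th ω)) ≤
        1 / P * c := by
      refine mul_le_mul ?_ hZ ?_ (by positivity)
      · exact div_le_div_of_nonneg_right a3 hPp.le
      · exact CH_nonneg (cond_nonneg hp.nonneg E True) _ _
    have a6 : 1 / P * c = c / P := by ring
    linarith
  -- all shapes
  have h3 := CH_pi_le hqc.nonneg (n + 1) (fun j w => Z (w j))
    (fun w => (b (w 0), fun j => th (w j)))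
  have h4 : ∑ j : Fin (n + 1), CH (cond q (All E n) True) (fun w => Z (w j))
      (fun w => (b (w 0), fun j => th (w j))) ≤ (n + 1) * (c / P) := by
    refine (Finset.sum_le_sum fun j _ => h2 j).trans (le_of_eq ?_)
    rw [Finset.sum_const, Finset.card_univ, Fintype.card_fin, nsmul_eq_mul]
    push_cast
    ring
  -- the conclusion
  have h5 := CH_bayes hqc.nonneg (fun w => Y (w i)) (fun w => fun j => Z (w j))
    (fun w => (b (w 0), fun j => th (w j)))
  have h6 : 0 ≤ CH (cond q (All E n) True) (fun w => fun j => Z (w j))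
      (fun w => (Y (w i), (b (w 0), fun j => th (w j)))) := CH_nonneg hqc.nonneg _ _
  have h7 : CH (cond q (All E n) True) (fun w => Y (w i))
      (fun w => (fun j => Z (w j), (b (w 0), fun j => th (w j)))) =
      CH (cond q (All E n) True) (fun w => Y (w i))
        (fun w => (b (w 0), fun j => (th (w j), Z (w j)))) := by
    refine le_antisymm (CH_mono_cond hqc.nonneg fun w w' _ _ h => ?_)
      (CH_mono_cond hqc.nonneg fun w w' _ _ h => ?_)
    · have e1 := Prod.ext_iff.1 h
      have e2 := Prod.ext_iff.1 e1.2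
      exact Prod.ext e2.1 (funext fun j => Prod.ext (congrFun e2.2 j) (congrFun e1.1 j))
    · have e1 := Prod.ext_iff.1 h
      exact Prod.ext (funext fun j => (Prod.ext_iff.1 (congrFun e1.2 j)).2)
        (Prod.ext e1.1 (funext fun j => (Prod.ext_iff.1 (congrFun e1.2 j)).1))
  have h8 : (θ + Real.log 2 + a + (n + 1) * c) / P = (θ + Real.log 2 + a) / P +
      (n + 1) * (c / P) := by ring
  rw [← hP] at h1
  linarith

/-- The position of one sample given the times of all samples: it is a function of the line block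
`B`, of the context and of its own time. -/
theorem pos_times {p : Ω → ℝ} (hp : IsLaw p) (l : Ω → Λ) (b : Ω → B) (hb : Det p l b)
    (W : Ω → U) (hW : Det p l W) (th : Ω → Θ) (Y : Ω → V)
    (hY : Det p (fun ω => (W ω, (b ω, th ω))) Y) (n : ℕ) {M θ : ℝ}
    (h1 : M - θ ≤ CH p Y (fun ω => (b ω, th ω)))
    (h2 : CH (cpn p l n) (fun w => W (w 0)) (fun w => b (w 0)) ≤
      CH (cpn p l n) (fun w => W (w 0)) (fun w => (b (w 0), fun j => th (w j))) + θ)
    (i : Fin (n + 1)) :
    M - 2 * θ ≤ CH (cpn p l n) (fun w => Y (w i))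
      (fun w => (b (w 0), fun j => th (w j))) := by
  classical
  obtain ⟨q, hq⟩ : ∃ q, q = cpn p l n := ⟨_, rfl⟩
  have hql : IsLaw q := by rw [hq]; exact cpn_law hp l n
  have m1 : Marg q p (fun w => w i) := by rw [hq]; exact cpn_marg hp.nonneg l n i
  have hqp : ∀ w, 0 < q w → ∀ j, 0 < p (w j) := by
    intro w hw j
    rw [hq] at hw
    exact (cpn_pos hp.nonneg l n w hw).1 j
  have hl : ∀ w, 0 < q w → ∀ j, l (w j) = l (w 0) := by
    intro w hw j
    rw [hq] at hw
    exact (cpn_pos hp.nonneg l n w hw).2 j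
  have hlb : ∀ w, 0 < q w → ∀ j, b (w j) = b (w 0) := fun w hw j =>
    hb _ _ (hqp w hw j) (hqp w hw 0) (hl w hw j)
  have hlW : ∀ w, 0 < q w → ∀ j, W (w j) = W (w 0) := fun w hw j =>
    hW _ _ (hqp w hw j) (hqp w hw 0) (hl w hw j)
  rw [← hq] at h2 ⊢
  have a1 : CH q (fun w => Y (w i)) (fun w => (b (w 0), th (w i))) =
      CH p Y (fun ω => (b ω, th ω)) := by
    rw [← m1.CH Y (fun ω => (b ω, th ω))]
    refine le_antisymm (CH_mono_cond hql.nonneg fun w w' hw hw' h => ?_)
      (CH_mono_cond hql.nonneg fun w w' hw hw' h => ?_)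
    · have e1 := Prod.ext_iff.1 h
      rw [Prod.mk.injEq, hlb w hw i, hlb w' hw' i]
      exact ⟨e1.1, e1.2⟩
    · have e1 := Prod.ext_iff.1 h
      simp only at e1
      rw [hlb w hw i, hlb w' hw' i] at e1
      exact Prod.ext e1.1 e1.2
  -- the own position is a function of the block
  have key : ∀ {K : Type} (C : (Fin (n + 1) → Ω) → K),
      (∀ w w', 0 < q w → 0 < q w' → C w = C w' → b (w 0) = b (w' 0) ∧ th (w i) = th (w' i)) →
      CH q (fun w => W (w 0)) C = CH q (fun w => Y (w i)) C +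
        CH q (fun w => W (w 0)) (fun w => (Y (w i), C w)) := by
    intro K C hC
    rw [← CH_chain hql.nonneg (fun w => W (w 0)) (fun w => Y (w i)) C]
    refine le_antisymm ?_ ?_
    · exact CH_mono_left hql.nonneg fun w w' _ _ h => (Prod.ext_iff.1 (Prod.ext_iff.1 h).1).1
    · refine CH_mono_left hql.nonneg fun w w' hw hw' h => ?_
      have e1 := Prod.ext_iff.1 h
      have e2 := hC w w' hw hw' e1.2
      have e3 : Y (w i) = Y (w' i) := by
        refine hY _ _ (hqp w hw i) (hqp w' hw' i) ?_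
        simp only [Prod.mk.injEq]
        rw [hlW w hw i, hlW w' hw' i, hlb w hw i, hlb w' hw' i]
        exact ⟨e1.1, e2.1, e2.2⟩
      exact Prod.ext e1.1 e3
  have k1 := key (fun w => (b (w 0), th (w i))) (fun w w' _ _ h => Prod.ext_iff.1 h)
  have k2 := key (fun w => (b (w 0), fun j => th (w j))) (fun w w' _ _ h =>
    ⟨(Prod.ext_iff.1 h).1, congrFun (Prod.ext_iff.1 h).2 i⟩)
  have k3 : CH q (fun w => W (w 0)) (fun w => (Y (w i), (b (w 0), fun j => th (w j)))) ≤
      CH q (fun w => W (w 0)) (fun w => (Y (w i), (b (w 0), th (w i)))) := by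
    refine CH_mono_cond hql.nonneg fun w w' _ _ h => ?_
    have e1 := Prod.ext_iff.1 h
    have e2 := Prod.ext_iff.1 e1.2
    exact Prod.ext e1.1 (Prod.ext e2.1 (congrFun e2.2 i))
  have k4 : CH q (fun w => W (w 0)) (fun w => (b (w 0), th (w i))) ≤
      CH q (fun w => W (w 0)) (fun w => b (w 0)) :=
    CH_mono_cond hql.nonneg fun w w' _ _ h => (Prod.ext_iff.1 h).1
  linarith

/-- **Several samples of one line** (46's form). -/
theorem smp_full (n : ℕ) (ϖ : ℝ) (hϖ : 0 < ϖ) : ∃ C : ℝ, 1 ≤ C ∧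
    ∀ (Ω Λ B U Θ S V : Type) [Fintype Ω] (p : Ω → ℝ) (l : Ω → Λ) (b : Ω → B) (W : Ω → U)
      (th : Ω → Θ) (Z : Ω → S) (Y : Ω → V) (E : Ω → Prop) (M k₁ k₂ θ : ℝ), IsLaw p →
      0 ≤ k₁ → 0 ≤ k₂ → 0 ≤ θ → Det p l b → Det p l W →
      Det p (fun ω => (W ω, (b ω, th ω))) Y → ϖ ≤ Pb p E →
      CH (cond p E True) Z (fun ω => (b ω, th ω)) ≤ k₁ →
      M - θ ≤ CH p Y (fun ω => (b ω, th ω)) →
      (∀ r : Ω → ℝ, IsLaw r → (∀ ω, 0 < r ω → 0 < p ω) →
        CH r Y (fun ω => (b ω, th ω)) ≤ M + k₂) →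
      CH (cpn p l n) (fun w => W (w 0)) (fun w => b (w 0)) ≤
        CH (cpn p l n) (fun w => W (w 0)) (fun w => (b (w 0), fun j => th (w j))) + θ →
      ϖ ^ (n + 1) ≤ Pb (cpn p l n) (fun w => ∀ i, E (w i)) ∧
      ∀ i, M - C * (θ + k₁ + k₂ + 1) ≤
        CH (cond (cpn p l n) (fun w => ∀ i, E (w i)) True) (fun w => Y (w i))
          (fun w => (b (w 0), fun j => (th (w j), Z (w j)))) := by
  refine ⟨(n + 2) / ϖ ^ (n + 1) + 1, by
    have : 0 ≤ ((n : ℝ) + 2) / ϖ ^ (n + 1) := by positivity
    linarith, ?_⟩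
  intro Ω Λ B U Θ S V _ p l b W th Z Y E M k₁ k₂ θ hp h1 h2 h3 hb hW hY hE hZ hM hM' hT
  have hE0 : 0 < Pb p E := lt_of_lt_of_le hϖ hE
  have e1 : ϖ ^ (n + 1) ≤ Pb (cpn p l n) (All E n) :=
    (pow_le_pow_left₀ hϖ.le hE _).trans (all_ge hp l E n)
  refine ⟨e1, fun i => ?_⟩
  have e2 := samp hp l b hb th Y Z E n h2 hM' hE0 i (pos_times hp l b hb W hW th Y hY n hM hT i) hZ
  refine le_trans ?_ e2
  have hϖn : 0 < ϖ ^ (n + 1) := pow_pos hϖ _
  have e3 : (2 * θ + Real.log 2 + k₂ + (n + 1) * k₁) / Pb (cpn p l n) (All E n) ≤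
      ((n + 2) * (θ + k₁ + k₂ + 1)) / ϖ ^ (n + 1) := by
    have hl2 : Real.log 2 ≤ 1 := by linarith [Real.log_two_lt_d9]
    have hn : (0 : ℝ) ≤ n := Nat.cast_nonneg n
    have e4 : 2 * θ + Real.log 2 + k₂ + (n + 1) * k₁ ≤ (n + 2) * (θ + k₁ + k₂ + 1) := by
      have := mul_nonneg hn h1
      have := mul_nonneg hn h2
      have := mul_nonneg hn h3
      nlinarith
    have hl0 : 0 < Real.log 2 := Real.log_pos (by norm_num)
    have e5 : 0 ≤ 2 * θ + Real.log 2 + k₂ + (n + 1) * k₁ := by positivity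
    exact div_le_div₀ (e5.trans e4) e4 hϖn e1
  have e6 : ((n + 2 : ℝ) * (θ + k₁ + k₂ + 1)) / ϖ ^ (n + 1) =
      (n + 2) / ϖ ^ (n + 1) * (θ + k₁ + k₂ + 1) := by ring
  have e7 : 0 ≤ θ + k₁ + k₂ + 1 := by positivity
  nlinarith

end Pool.MIC30
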